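import Pool.Agent.H66.IQ.TD
import Pool.Agent.H67.IP.ONC

/-!
# Verifiers in the polynomial hierarchy: row OND (a game does not see one copy)
-/

set_option autoImplicit false

namespace Pool.Agent.H36.IQ

open Finset Pool.Agent.H6.NB Pool.Agent.H70.EH Pool.Agent.H78.XQ Pool.Agent.H66.IQ

theorem card_VV (q : ℕ) : (Fintype.card (VV q) : ℝ) = 2 * 2 ^ q := by
  have h : Fintype.card (VV q) = 2 * 2 ^ q := by
    unfold VV
    simp
  rw [h]
  push_cast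
  rfl

theorem ond_num (A K R k B S Δ D : ℝ) (hA : 1 ≤ A) (hK1 : 1 ≤ K) (hkK : k ≤ K) (hB : 1 ≤ B)
    (hR : 0 ≤ R) (hS : B * B ≤ S) (hD : D ≤ A * (4000 * B * K + R) / S + 1 / B)
    (hΔ : Δ ≤ D + k / B) : Δ ≤ A * (4003 * K / B + R) := by
  have hB0 : 0 < B := by linarith
  have hS0 : 0 < S := lt_of_lt_of_le (mul_pos hB0 hB0) hS
  have hS1 : 1 ≤ S := by nlinarith
  have h1 : 4000 * B * K / S ≤ 4000 * (K / B) := by
    rw [← mul_div_assoc, div_le_div_iff₀ hS0 hB0]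
    nlinarith [mul_nonneg (by linarith : (0 : ℝ) ≤ 4000 * K) (by linarith : (0 : ℝ) ≤ S - B * B)]
  have h2 : 1 / B ≤ K / B := div_le_div_of_nonneg_right hK1 hB0.le
  have h3 : k / B ≤ K / B := div_le_div_of_nonneg_right hkK hB0.le
  have h4 : 0 ≤ K / B := div_nonneg (by linarith) hB0.le
  have h5 : 4003 * K / B = 4003 * (K / B) := by ring
  have h6 : R / S ≤ R := div_le_self hR hS1
  have h7 : A * (4000 * B * K + R) / S = A * (4000 * B * K / S + R / S) := by ring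
  have h8 : A * (4000 * B * K / S + R / S) ≤ A * (4000 * (K / B) + R) :=
    mul_le_mul_of_nonneg_left (add_le_add h1 h6) (by linarith)
  have h9 : K / B ≤ A * (K / B) := by nlinarith
  rw [h5]
  rw [h7] at hD
  nlinarith

/-- OND: a game whose leaves are formulas does not see one copy. -/
theorem pf_OND (hEVS : T_EVS) (hRTR : T_RTR) (hGL3 : T_GL3) (hABS : Pool.Agent.H76.IP.T_ABS)
    (hMUV : Pool.Agent.H70.EH.T_MUV) : T_OND := by
  intro q k m S d w t hq hk hw hcc hdp hcb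
  have hB1 : (1 : ℝ) ≤ 2 ^ (q / 4) := one_le_pow₀ (by norm_num)
  have hB0 : (0 : ℝ) < 2 ^ (q / 4) := by linarith
  obtain ⟨β, hβ⟩ : ∃ β : ℝ, β = 2 ^ (q / 4) := ⟨_, rfl⟩
  rw [← hβ] at hB1 hB0 ⊢
  have hF : ∀ y, 0 ≤ t.sv β y ∧ t.sv β y ≤ t.ev y ∧ t.ev y ≤ 1 ∧ t.ev y ≤ t.sv β y + t.cc / β :=
    fun y => hEVS (VV q) β t y hB0
  obtain ⟨A, hAdef⟩ : ∃ A : ℝ, A = (128 * (w : ℝ)) ^ (2 * (d + 1)) := ⟨_, rfl⟩
  obtain ⟨R, hRdef⟩ : ∃ R : ℝ, R = (2 * 2 ^ q) ^ 2 * 2 ^ m * ((S : ℝ) + 1) ^ (d + 1) / 2 ^ w :=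
    ⟨_, rfl⟩
  have hw' : (1 : ℝ) ≤ w := by exact_mod_cast hw
  have hA1 : 1 ≤ A := by
    rw [hAdef]
    exact one_le_pow₀ (by linarith)
  have hR0 : 0 ≤ R := by
    rw [hRdef]
    positivity
  have hL : ∀ ρ, L12 (rst ρ (t.sv β)) ≤
      A * (4000 * β * (k : ℝ) ^ 2 * (m + 1) * (w : ℝ) ^ 2 + R) := by
    intro ρ
    obtain ⟨t', h1, h2, -, h4, -, h5⟩ := hRTR (VV q) t ρ
    have e : rst ρ (t.sv β) = t'.sv β := funext fun y => (h5 β y).symm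
    rw [e, hAdef, hRdef, ← card_VV q]
    exact hGL3 (VV q) β k m S d w t' hB1 hk hw (h1.trans hcc) (h2.trans hdp) (h4 S (d + 1) hcb)
  have hA := hABS q (t.sv β) _ hq hL fun y => abs_le.2
    ⟨by linarith [(hF y).1], by linarith [(hF y).2.1, (hF y).2.2.1]⟩
  obtain ⟨m1, s1, -⟩ := hMUV true q
  obtain ⟨m0, s0, -⟩ := hMUV false q
  have hkc : (t.cc : ℝ) / β ≤ k / β :=
    div_le_div_of_nonneg_right (by exact_mod_cast hcc) hB0.le
  have hb : ∀ p, t.sv β p ≤ t.ev p ∧ t.ev p ≤ t.sv β p + k / β := fun p =>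
    ⟨(hF p).2.1, by linarith [(hF p).2.2.2]⟩
  obtain ⟨a1, a2⟩ := Pool.Agent.H67.IP.onc_avg (mv true q) (t.sv β) t.ev (k / β) m1 s1 hb
  obtain ⟨b1, b2⟩ := Pool.Agent.H67.IP.onc_avg (mv false q) (t.sv β) t.ev (k / β) m0 s0 hb
  have hsub : ∑ p, (mv true q p - mv false q p) * t.sv β p =
      ∑ p, mv true q p * t.sv β p - ∑ p, mv false q p * t.sv β p := by
    rw [← Finset.sum_sub_distrib]
    exact Finset.sum_congr rfl fun p _ => by ring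
  rw [hsub] at hA
  have hΔ : |∑ p, mv true q p * t.ev p - ∑ p, mv false q p * t.ev p| ≤
      |∑ p, mv true q p * t.sv β p - ∑ p, mv false q p * t.sv β p| + k / β := by
    have c1 := le_abs_self (∑ p, mv true q p * t.sv β p - ∑ p, mv false q p * t.sv β p)
    have c2 := neg_abs_le (∑ p, mv true q p * t.sv β p - ∑ p, mv false q p * t.sv β p)
    rw [abs_le]
    constructor <;> linarith
  have hsq : β * β ≤ √(2 ^ q) := by
    apply Real.le_sqrt_of_sq_le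
    rw [hβ, ← pow_add, ← pow_mul]
    exact pow_le_pow_right₀ (by norm_num) (by omega)
  have hlast : (1 : ℝ) / 2 ^ 2 ^ (q - 2) ≤ 1 / β := by
    rw [hβ]
    apply one_div_le_one_div_of_le (by positivity)
    apply pow_le_pow_right₀ (by norm_num)
    have : q - 2 < 2 ^ (q - 2) := Nat.lt_two_pow_self
    omega
  have hk' : (1 : ℝ) ≤ k := by exact_mod_cast hk
  have hm' : (1 : ℝ) ≤ (m : ℝ) + 1 := by
    have : (0 : ℝ) ≤ m := Nat.cast_nonneg m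
    linarith
  have hkk : (k : ℝ) ≤ k ^ 2 := by nlinarith
  have hww : (1 : ℝ) ≤ (w : ℝ) ^ 2 := by nlinarith
  have hdw : (1 : ℝ) ≤ ((m : ℝ) + 1) * (w : ℝ) ^ 2 := by nlinarith
  have hK : (k : ℝ) ^ 2 * 1 ≤ (k : ℝ) ^ 2 * (((m : ℝ) + 1) * (w : ℝ) ^ 2) :=
    mul_le_mul_of_nonneg_left hdw (by positivity)
  have hkK : (k : ℝ) ≤ (k : ℝ) ^ 2 * (((m : ℝ) + 1) * (w : ℝ) ^ 2) := by linarith
  have hfin := ond_num A ((k : ℝ) ^ 2 * (((m : ℝ) + 1) * (w : ℝ) ^ 2)) R k β (√(2 ^ q))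
    (|∑ p, mv true q p * t.ev p - ∑ p, mv false q p * t.ev p|)
    (|∑ p, mv true q p * t.sv β p - ∑ p, mv false q p * t.sv β p|)
    hA1 (by linarith) hkK hB1 hR0 hsq ?_ hΔ
  · rw [← hAdef, ← hRdef]
    refine hfin.trans (le_of_eq ?_)
    ring
  · refine hA.trans ?_
    have e : A * (4000 * β * (k : ℝ) ^ 2 * (m + 1) * (w : ℝ) ^ 2 + R) / √(2 ^ q) =
      A * (4000 * β * ((k : ℝ) ^ 2 * (((m : ℝ) + 1) * (w : ℝ) ^ 2)) + R) / √(2 ^ q) := by ring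
    rw [e]
    linarith

end Pool.Agent.H36.IQ
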