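import Pool.Agent.H66.IQ.TD

/-!
# Verifiers in the polynomial hierarchy: row SBT (substitution)
-/

set_option autoImplicit false

namespace Pool.Agent.H36.IQ

open Finset Pool.Agent.H66.IQ

section

variable {V X : Type}

/-- the point after the substitution -/
def sub (s : V → Bool ⊕ X) (y : X → Bool) : V → Bool := fun v => Sum.elim id y (s v)

open Classical in
/-- the leaf after the substitution -/
noncomputable def lfs (a : Lf V) (s : V → Bool ⊕ X) : Lf X where
  f y := a.f (sub s y)
  Q y := ((a.Q (sub s y)).image fun v => (s v).getRight?).eraseNone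
  path y y' h := by
    have h1 : ∀ v ∈ a.Q (sub s y), sub s y' v = sub s y v := by
      intro v hv
      unfold sub
      rcases hs : s v with b | x
      · rfl
      · exact h x (by
          rw [mem_eraseNone, mem_image]
          exact ⟨v, hv, by rw [hs]; rfl⟩)
    obtain ⟨h2, h3⟩ := a.path (sub s y) (sub s y') h1
    exact ⟨h2, by rw [h3]⟩

theorem card_lfs (a : Lf V) (s : V → Bool ⊕ X) (y : X → Bool) :
    ((lfs a s).Q y).card ≤ (a.Q (sub s y)).card := by
  classical
  refine (card_eraseNone_le _).trans ?_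
  exact card_image_le

end

/-- SBT: substitution. -/
theorem pf_SBT : T_SBT := by
  classical
  intro V X _ _ t s
  induction t with
  | lf a =>
    refine ⟨Tr.lf (lfs a s), rfl, rfl, ?_, fun y => rfl⟩
    show univ.sup (fun y => ((lfs a s).Q y).card) ≤ univ.sup fun y => (a.Q y).card
    refine Finset.sup_le fun y _ => (card_lfs a s y).trans ?_
    exact Finset.le_sup (f := fun y => (a.Q y).card) (mem_univ (sub s y))
  | av l r ihl ihr =>
    obtain ⟨l', l1, l2, l3, l4⟩ := ihl
    obtain ⟨r', r1, r2, r3, r4⟩ := ihr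
    refine ⟨Tr.av l' r', ?_, ?_, max_le_max l3 r3, fun y => ?_⟩
    · show max l'.cc r'.cc = max l.cc r.cc
      rw [l1, r1]
    · show max l'.dp r'.dp + 1 = max l.dp r.dp + 1
      rw [l2, r2]
    · show (l'.ev y + r'.ev y) / 2 = _
      rw [l4, r4]
      rfl
  | ch l r ihl ihr =>
    obtain ⟨l', l1, l2, l3, l4⟩ := ihl
    obtain ⟨r', r1, r2, r3, r4⟩ := ihr
    refine ⟨Tr.ch l' r', ?_, ?_, max_le_max l3 r3, fun y => ?_⟩
    · show max l'.cc r'.cc + 1 = max l.cc r.cc + 1
      rw [l1, r1]
    · show max l'.dp r'.dp + 1 = max l.dp r.dp + 1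
      rw [l2, r2]
    · show max (l'.ev y) (r'.ev y) = _
      rw [l4, r4]
      rfl

end Pool.Agent.H36.IQ
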